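import Pool.Agent.H21.BS.TB

/-! row CR1 of the board bes_modules (MP_c59857_nt): the trivial bound -/

set_option autoImplicit false

open Finset Pool.Agent.H6.N4D Pool.Agent.H21.BS

namespace Pool.Agent.H97.BS

/-- one set of indices -/
theorem one_set (hCNT : T_CNT) (q o : Fin 4 → ℕ) (P a N : ℕ) (hq : ∀ j, (q j).Prime)
    (hP : ∀ j, P ≤ q j) (hN : ∀ j, q j ^ 200 ≤ N) (ho : Function.Injective o)
    (hoP : ∀ j, o j < P) (J : Finset (Fin 4)) :
    ∑ x ∈ range N, ∏ j ∈ J, (if q j ∣ a + x + o j then (q j : ℝ) else 0) ≤ 2 * N := by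
  classical
  by_cases hJ : ∀ i ∈ J, ∀ j ∈ J, q i = q j → i = j
  · set m : ℕ := ∏ j ∈ J, q j with hm
    set X : Finset ℕ := (range N).filter (fun x => ∀ j ∈ J, q j ∣ a + x + o j) with hX
    have hm1 : 1 ≤ m := by
      rw [hm]
      exact Nat.one_le_iff_ne_zero.2 (prod_ne_zero_iff.2 fun j _ => (hq j).ne_zero)
    have hsum : ∑ x ∈ range N, ∏ j ∈ J, (if q j ∣ a + x + o j then (q j : ℝ) else 0) =
        (X.card : ℝ) * m := by
      have h1 : ∀ x ∈ range N, ∏ j ∈ J, (if q j ∣ a + x + o j then (q j : ℝ) else 0) =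
          if (∀ j ∈ J, q j ∣ a + x + o j) then (m : ℝ) else 0 := by
        intro x _
        split_ifs with h
        · rw [hm]
          push_cast
          exact prod_congr rfl fun j hj => if_pos (h j hj)
        · push Not at h
          obtain ⟨j, hj, hj2⟩ := h
          exact prod_eq_zero hj (if_neg hj2)
      rw [sum_congr rfl h1, ← sum_filter, sum_const, nsmul_eq_mul]
    have hdiv : ∀ x ∈ X, ∀ y ∈ X, (m : ℤ) ∣ (x : ℤ) - y := by
      intro x hx y hy
      rw [hX, mem_filter] at hx hy
      rw [hm]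
      push_cast
      apply Finset.prod_dvd_of_coprime
      · intro i hi j hj hij
        have hne : q i ≠ q j := fun h => hij (hJ i hi j hj h)
        exact Nat.isCoprime_iff_coprime.2 ((Nat.coprime_primes (hq i) (hq j)).2 hne)
      · intro j hj
        have h1 : (q j : ℤ) ∣ ((a + x + o j : ℕ) : ℤ) := Int.natCast_dvd_natCast.2 (hx.2 j hj)
        have h2 : (q j : ℤ) ∣ ((a + y + o j : ℕ) : ℤ) := Int.natCast_dvd_natCast.2 (hy.2 j hj)
        have h3 := dvd_sub h1 h2
        have h4 : ((a + x + o j : ℕ) : ℤ) - ((a + y + o j : ℕ) : ℤ) = (x : ℤ) - y := by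
          push_cast
          ring
        rwa [h4] at h3
    have hc := hCNT N m X hm1 (filter_subset _ _) hdiv
    have hm0 : (0 : ℝ) < m := by exact_mod_cast hm1
    have hN1 : 1 ≤ N := le_trans (Nat.one_le_pow _ _ (hq 0).pos) (hN 0)
    have hmN : m ≤ N := by
      have h1 : m ^ 200 ≤ N ^ J.card := by
        rw [hm, ← prod_pow]
        exact prod_le_pow_card J _ N fun j _ => hN j
      have h2 : N ^ J.card ≤ N ^ 4 := by
        apply Nat.pow_le_pow_right hN1
        have := card_le_univ J
        simpa using this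
      have h3 : (m ^ 50) ^ 4 ≤ N ^ 4 := by
        rw [← pow_mul]
        exact h1.trans h2
      have h4 : m ^ 50 ≤ N := (Nat.pow_le_pow_iff_left (by norm_num)).1 h3
      exact le_trans (Nat.le_self_pow (by norm_num) m) h4
    have hmN' : (m : ℝ) ≤ N := by exact_mod_cast hmN
    rw [hsum]
    calc (X.card : ℝ) * m ≤ ((N : ℝ) / m + 1) * m := by gcongr
      _ = N + m := by
        field_simp
      _ ≤ 2 * N := by linarith
  · push Not at hJ
    obtain ⟨i, hi, j, hj, hij, hne⟩ := hJ
    have h0 : ∀ x ∈ range N, ∏ j ∈ J, (if q j ∣ a + x + o j then (q j : ℝ) else 0) = 0 := by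
      intro x _
      by_cases h1 : q i ∣ a + x + o i
      · refine prod_eq_zero hj (if_neg ?_)
        intro h2
        rw [hij] at h1
        have h3 : o i ≠ o j := fun h => hne (ho h)
        have h4 := hoP i
        have h5 := hoP j
        have h6 := hP j
        rcases Nat.lt_or_gt_of_ne h3 with h7 | h7
        · have h8 : q j ∣ (a + x + o j) - (a + x + o i) := Nat.dvd_sub h2 h1
          have h9 : (a + x + o j) - (a + x + o i) = o j - o i := by omega
          rw [h9] at h8
          have := Nat.le_of_dvd (by omega) h8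
          omega
        · have h8 : q j ∣ (a + x + o i) - (a + x + o j) := Nat.dvd_sub h1 h2
          have h9 : (a + x + o i) - (a + x + o j) = o i - o j := by omega
          rw [h9] at h8
          have := Nat.le_of_dvd (by omega) h8
          omega
      · exact prod_eq_zero hi (if_neg h1)
    rw [sum_eq_zero h0]
    positivity

theorem pf_CR1 (hCNT : T_CNT) : T_CR1 := by
  intro q o P a N hq hP hN ho hoP
  have h1 : ∀ x ∈ range N, ∏ j, MD (q j) (a + x + o j) =
      ∑ J ∈ (univ : Finset (Fin 4)).powerset,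
        ∏ j ∈ J, (if q j ∣ a + x + o j then (q j : ℝ) else 0) := by
    intro x _
    unfold MD
    exact prod_add_one _
  rw [sum_congr rfl h1, sum_comm]
  calc _ ≤ ∑ J ∈ (univ : Finset (Fin 4)).powerset, (2 * N : ℝ) :=
        sum_le_sum fun J _ => one_set hCNT q o P a N hq hP hN ho hoP J
    _ = 32 * N := by
      rw [sum_const, card_powerset, card_univ, Fintype.card_fin, nsmul_eq_mul]
      push_cast
      ring

end Pool.Agent.H97.BS
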